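import Pool.Agent.W792.WA.Stm
import Pool.Agent.W918.LL.Opr
import Pool.Agent.W308.LL.Trig
import Pool.Agent.W335.LLCay
import Pool.Agent.W792.LL.Dia

/-!
Quasi-local random operators form an algebra closed under inverses.
-/

namespace Pool.Agent.W74.WA.QL

open MeasureTheory Filter Pool.Agent.W792.LL Pool.Agent.W792.WA
open scoped Topology

noncomputable section

variable {d : ℕ}

/-- Random operators. -/
abbrev RO (d : ℕ) := ((Fin d → ℤ) → ℝ) → (l2 (Fin d → ℤ) →L[ℂ] l2 (Fin d → ℤ))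

lemma nb_mono {R R' : ℕ} (h : R ≤ R') {x y : Fin d → ℤ} (hn : nb R x y) : nb R' x y :=
  fun i => (hn i).trans (by exact_mod_cast h)

lemma nb_trans {R R' : ℕ} {x y z : Fin d → ℤ} (h1 : nb R x z) (h2 : nb R' z y) :
    nb (R + R') x y := by
  intro i
  have e : x i - y i = (x i - z i) + (z i - y i) := by ring
  rw [e]
  refine (abs_add_le _ _).trans ?_
  push_cast
  exact add_le_add (h1 i) (h2 i)

lemma nb_refl (R : ℕ) (x : Fin d → ℤ) : nb R x x := by
  intro i
  simp

lemma mem_bx {R : ℕ} {x z : Fin d → ℤ} : z ∈ bx R x ↔ nb R x z := by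
  unfold bx nb
  rw [Finset.mem_Icc]
  constructor
  · rintro ⟨h1, h2⟩ i
    have a := h1 i
    have b := h2 i
    simp only at a b
    rw [abs_le]
    constructor <;> linarith
  · intro h
    constructor
    · intro i
      have := abs_le.1 (h i)
      simp only
      linarith [this.2]
    · intro i
      have := abs_le.1 (h i)
      simp only
      linarith [this.1]

lemma dl_apply (x y : Fin d → ℤ) : (dl y : l2 (Fin d → ℤ)) x = if x = y then 1 else 0 := by
  unfold dl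
  rw [lp.single_apply]
  by_cases h : x = y
  · subst h; simp
  · simp [h]

/-- Evaluation. -/
def ev (x : Fin d → ℤ) : l2 (Fin d → ℤ) →L[ℂ] ℂ := lp.evalCLM ℂ (fun _ : Fin d → ℤ => ℂ) 2 x

lemma ev_apply (x : Fin d → ℤ) (u : l2 (Fin d → ℤ)) : ev x u = u x := rfl

lemma norm_coord (u : l2 (Fin d → ℤ)) (x : Fin d → ℤ) : ‖u x‖ ≤ ‖u‖ :=
  lp.norm_apply_le_norm two_ne_zero u x

lemma expand (A : l2 (Fin d → ℤ) →L[ℂ] l2 (Fin d → ℤ)) (R : ℕ) (x : Fin d → ℤ)
    (h : ∀ y, ¬ nb R x y → A (dl y) x = 0) (u : l2 (Fin d → ℤ)) :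
    A u x = ∑ z ∈ bx R x, u z * A (dl z) x := by
  have h1 : HasSum (fun z => (lp.single 2 z (u z) : l2 (Fin d → ℤ))) u :=
    lp.hasSum_single (by simp) u
  have h2 := ((ev x).comp A).hasSum h1
  have h3 : ∀ z, ((ev x).comp A) (lp.single 2 z (u z) : l2 (Fin d → ℤ)) = u z * A (dl z) x := by
    intro z
    have e : (lp.single 2 z (u z) : l2 (Fin d → ℤ)) = u z • dl z := by
      unfold dl
      rw [← lp.single_smul]
      simp
    rw [e, map_smul]
    rfl
  have h4 : HasSum (fun z => u z * A (dl z) x) (A u x) := by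
    rw [show (fun z => u z * A (dl z) x) =
      fun b => ((ev x).comp A) (lp.single 2 b (u b) : l2 (Fin d → ℤ)) from
        funext fun z => (h3 z).symm]
    exact h2
  have h5 : HasSum (fun z => u z * A (dl z) x) (∑ z ∈ bx R x, u z * A (dl z) x) := by
    refine hasSum_sum_of_ne_finset_zero ?_
    intro z hz
    rw [h z (fun hn => hz (mem_bx.2 hn)), mul_zero]
  exact h4.unique h5

lemma loc_nonneg {R : ℕ} {C : ℝ} {Q : RO d} (h : IsLoc R C Q) : 0 ≤ C :=
  (norm_nonneg _).trans (h.bound 0)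

lemma loc_mono {R R' : ℕ} {C C' : ℝ} {Q : RO d} (h : IsLoc R C Q) (hR : R ≤ R') (hC : C ≤ C') :
    IsLoc R' C' Q where
  bound v := (h.bound v).trans hC
  range v x y hn := h.range v x y (fun h' => hn (nb_mono hR h'))
  loc x y v v' hv := h.loc x y v v' (fun z hz => hv z (nb_mono hR hz))
  meas := h.meas

lemma loc_add {R R' : ℕ} {C C' : ℝ} {Q Q' : RO d} (h : IsLoc R C Q) (h' : IsLoc R' C' Q') :
    IsLoc (max R R') (C + C') (fun v => Q v + Q' v) where
  bound v := (norm_add_le _ _).trans (add_le_add (h.bound v) (h'.bound v))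
  range v x y hn := by
    have a := h.range v x y (fun h1 => hn (nb_mono (le_max_left _ _) h1))
    have b := h'.range v x y (fun h1 => hn (nb_mono (le_max_right _ _) h1))
    change Q v (dl y) x + Q' v (dl y) x = 0
    rw [a, b, add_zero]
  loc x y v v' hv := by
    have a := h.loc x y v v' (fun z hz => hv z (nb_mono (le_max_left _ _) hz))
    have b := h'.loc x y v v' (fun z hz => hv z (nb_mono (le_max_right _ _) hz))
    change Q v (dl y) x + Q' v (dl y) x = Q v' (dl y) x + Q' v' (dl y) x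
    rw [a, b]
  meas x y := (h.meas x y).add (h'.meas x y)

lemma loc_neg {R : ℕ} {C : ℝ} {Q : RO d} (h : IsLoc R C Q) : IsLoc R C (fun v => - Q v) where
  bound v := by rw [norm_neg]; exact h.bound v
  range v x y hn := by
    change - (Q v (dl y) x) = 0
    rw [h.range v x y hn, neg_zero]
  loc x y v v' hv := by
    change - (Q v (dl y) x) = - (Q v' (dl y) x)
    rw [h.loc x y v v' hv]
  meas x y := (h.meas x y).neg

lemma mul_expand {R : ℕ} {C : ℝ} {Q : RO d} (h : IsLoc R C Q) (Q' : RO d)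
    (v : (Fin d → ℤ) → ℝ) (x y : Fin d → ℤ) :
    (Q v * Q' v) (dl y) x = ∑ z ∈ bx R x, Q' v (dl y) z * Q v (dl z) x :=
  expand (Q v) R x (fun z hz => h.range v x z hz) (Q' v (dl y))

lemma loc_mul {R R' : ℕ} {C C' : ℝ} {Q Q' : RO d} (h : IsLoc R C Q) (h' : IsLoc R' C' Q') :
    IsLoc (R + R') (C * C') (fun v => Q v * Q' v) where
  bound v := (norm_mul_le _ _).trans
    (mul_le_mul (h.bound v) (h'.bound v) (norm_nonneg _) (loc_nonneg h))
  range v x y hn := by
    rw [mul_expand h Q' v x y]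
    refine Finset.sum_eq_zero fun z hz => ?_
    rw [h'.range v z y (fun h1 => hn (nb_trans (mem_bx.1 hz) h1)), zero_mul]
  loc x y v v' hv := by
    rw [mul_expand h Q' v x y, mul_expand h Q' v' x y]
    refine Finset.sum_congr rfl fun z hz => ?_
    rw [h.loc x z v v' (fun w hw => hv w (nb_mono (Nat.le_add_right _ _) hw)),
      h'.loc z y v v' (fun w hw => hv w (nb_trans (mem_bx.1 hz) hw))]
  meas x y := by
    have e : (fun v => (Q v * Q' v) (dl y) x)
        = fun v => ∑ z ∈ bx R x, Q' v (dl y) z * Q v (dl z) x :=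
      funext fun v => mul_expand h Q' v x y
    rw [e]
    exact Finset.measurable_fun_sum _ fun z _ => (h'.meas z y).mul (h.meas x z)

lemma loc_meas {R : ℕ} {C : ℝ} {Q : RO d} (h : IsLoc R C Q) (u : l2 (Fin d → ℤ))
    (x : Fin d → ℤ) : Measurable fun v => Q v u x := by
  have e : (fun v => Q v u x) = fun v => ∑ z ∈ bx R x, u z * Q v (dl z) x :=
    funext fun v => expand (Q v) R x (fun z hz => h.range v x z hz) u
  rw [e]
  exact Finset.measurable_fun_sum _ fun z _ => (h.meas x z).const_mul _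

lemma opr_coef (m : C(UnitAddTorus (Fin d), ℂ)) (x y : Fin d → ℤ) :
    opr m (dl y) x = UnitAddTorus.mFourierCoeff m (x - y) := by
  rw [((Pool.Agent.W918.LL.main d m m).1 (dl y) x).2, tsum_eq_single y]
  · rw [dl_apply, if_pos rfl, mul_one]
  · intro z hz
    rw [dl_apply, if_neg hz, mul_zero]

lemma loc_trig (h : (Fin d → ℤ) →₀ ℂ) :
    IsLoc (∑ n ∈ h.support, ∑ i, (n i).natAbs) ‖trig h‖ (fun _ => opr (trig h)) where
  bound _ := (Pool.Agent.W918.LL.main d (trig h) (trig h)).2.1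
  range v x y hn := by
    rw [opr_coef, (Pool.Agent.W308.LL.Trig.main d).2 h (x - y)]
    by_contra hc
    apply hn
    intro i
    have h1 : (x - y) ∈ h.support := Finsupp.mem_support_iff.2 hc
    have h2 : ((x - y) i).natAbs ≤ ∑ i, ((x - y) i).natAbs :=
      Finset.single_le_sum (f := fun i => ((x - y) i).natAbs) (fun _ _ => Nat.zero_le _)
        (Finset.mem_univ i)
    have h3 : ∑ i, ((x - y) i).natAbs ≤ ∑ n ∈ h.support, ∑ i, (n i).natAbs :=
      Finset.single_le_sum (f := fun n : Fin d → ℤ => ∑ i, (n i).natAbs)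
        (fun _ _ => Nat.zero_le _) h1
    have h4 := h2.trans h3
    have h5 : |x i - y i| = (((x - y) i).natAbs : ℤ) := by
      rw [Int.natCast_natAbs]; rfl
    rw [h5]
    exact_mod_cast h4
  loc _ _ _ _ _ := rfl
  meas _ _ := measurable_const

lemma ql_opr (m : C(UnitAddTorus (Fin d), ℂ)) : IsQL fun _ => opr m := by
  intro ε hε
  obtain ⟨h, hh⟩ := (Pool.Agent.W308.LL.Trig.main d).1 m ε hε
  refine ⟨_, _, _, loc_trig h, fun v => ?_⟩
  have hO := Pool.Agent.W918.LL.main d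
  have e : opr m - opr (trig h) = opr (m - trig h) := by
    have h1 : opr (m - trig h) = opr (m + (-1 : ℂ) • trig h) := by
      congr 1
      ext k
      simp [sub_eq_add_neg]
    rw [h1, (hO m ((-1 : ℂ) • trig h)).2.2.2.1, (hO (trig h) m).2.2.2.2.1]
    rw [neg_smul, one_smul, sub_eq_add_neg]
  rw [e]
  refine ((hO (m - trig h) m).2.1).trans ?_
  rw [norm_sub_rev]
  exact hh

lemma dc_apply (v : (Fin d → ℤ) → ℝ) (u : l2 (Fin d → ℤ)) (x : Fin d → ℤ) :
    dc v u x = cay (v x) * u x :=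
  (Pool.Agent.W792.LL.DiaP.main (Fin d → ℤ) (fun x => cay (v x))
    (fun x => (Pool.Agent.W335.LLCay.main.1 (v x)).le)).1 u x

lemma loc_dc : IsLoc (d := d) 0 1 dc where
  bound v := (Pool.Agent.W792.LL.DiaP.main (Fin d → ℤ) (fun x => cay (v x))
    (fun x => (Pool.Agent.W335.LLCay.main.1 (v x)).le)).2
  range v x y hn := by
    rw [dc_apply, dl_apply, if_neg, mul_zero]
    rintro rfl
    exact hn (nb_refl 0 x)
  loc x y v v' hv := by
    rw [dc_apply, dc_apply, hv x (nb_refl 0 x)]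
  meas x y := by
    simp only [dc_apply]
    exact ((Pool.Agent.W335.LLCay.main.2.1.measurable).comp (measurable_pi_apply x)).mul_const _

lemma ql_of_loc {R : ℕ} {C : ℝ} {Q : RO d} (h : IsLoc R C Q) : IsQL Q := by
  intro ε hε
  exact ⟨R, C, Q, h, fun v => by simpa using hε.le⟩

lemma ql_add {Q Q' : RO d} (h : IsQL Q) (h' : IsQL Q') : IsQL (fun v => Q v + Q' v) := by
  intro ε hε
  obtain ⟨R, C, P, hP, hP'⟩ := h (ε / 2) (by positivity)
  obtain ⟨R', C', P', hQ, hQ'⟩ := h' (ε / 2) (by positivity)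
  refine ⟨_, _, _, loc_add hP hQ, fun v => ?_⟩
  have e : Q v + Q' v - (P v + P' v) = (Q v - P v) + (Q' v - P' v) := by abel
  rw [e]
  refine (norm_add_le _ _).trans ?_
  linarith [hP' v, hQ' v]

lemma ql_neg {Q : RO d} (h : IsQL Q) : IsQL (fun v => - Q v) := by
  intro ε hε
  obtain ⟨R, C, P, hP, hP'⟩ := h ε hε
  refine ⟨_, _, _, loc_neg hP, fun v => ?_⟩
  have e : - Q v - (- P v) = - (Q v - P v) := by abel
  rw [e, norm_neg]
  exact hP' v

lemma ql_sub {Q Q' : RO d} (h : IsQL Q) (h' : IsQL Q') : IsQL (fun v => Q v - Q' v) := by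
  have := ql_add h (ql_neg h')
  simpa only [← sub_eq_add_neg] using this

lemma ql_bound {Q : RO d} (h : IsQL Q) : ∃ C : ℝ, 0 ≤ C ∧ ∀ v, ‖Q v‖ ≤ C := by
  obtain ⟨R, C, P, hP, hP'⟩ := h 1 one_pos
  refine ⟨C + 1, by linarith [loc_nonneg hP], fun v => ?_⟩
  have e : Q v = P v + (Q v - P v) := by abel
  rw [e]
  exact (norm_add_le _ _).trans (add_le_add (hP.bound v) (hP' v))

lemma ql_mul {Q Q' : RO d} (h : IsQL Q) (h' : IsQL Q') : IsQL (fun v => Q v * Q' v) := by
  intro ε hε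
  obtain ⟨B, hB0, hB⟩ := ql_bound h'
  obtain ⟨R, C, P, hP, hP'⟩ := h (ε / (2 * (B + 1))) (by positivity)
  have hC := loc_nonneg hP
  obtain ⟨R', C', P', hQ, hQ'⟩ := h' (ε / (2 * (C + 1))) (by positivity)
  refine ⟨_, _, _, loc_mul hP hQ, fun v => ?_⟩
  have e : Q v * Q' v - P v * P' v = (Q v - P v) * Q' v + P v * (Q' v - P' v) := by
    rw [sub_mul, mul_sub]; abel
  rw [e]
  refine (norm_add_le _ _).trans ?_
  have h1 : ‖(Q v - P v) * Q' v‖ ≤ ε / 2 := by
    refine (norm_mul_le _ _).trans ?_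
    calc ‖Q v - P v‖ * ‖Q' v‖ ≤ (ε / (2 * (B + 1))) * B :=
          mul_le_mul (hP' v) (hB v) (norm_nonneg _) (by positivity)
      _ ≤ (ε / (2 * (B + 1))) * (B + 1) := by gcongr; linarith
      _ = ε / 2 := by field_simp
  have h2 : ‖P v * (Q' v - P' v)‖ ≤ ε / 2 := by
    refine (norm_mul_le _ _).trans ?_
    calc ‖P v‖ * ‖Q' v - P' v‖ ≤ C * (ε / (2 * (C + 1))) :=
          mul_le_mul (hP.bound v) (hQ' v) (norm_nonneg _) hC
      _ ≤ (C + 1) * (ε / (2 * (C + 1))) := by gcongr; linarith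
      _ = ε / 2 := by field_simp
  linarith

lemma ql_lim {Q : RO d} (h : ∀ ε : ℝ, 0 < ε → ∃ P : RO d, IsQL P ∧ ∀ v, ‖Q v - P v‖ ≤ ε) :
    IsQL Q := by
  intro ε hε
  obtain ⟨P, hP, hP'⟩ := h (ε / 2) (by positivity)
  obtain ⟨R, C, T, hT, hT'⟩ := hP (ε / 2) (by positivity)
  refine ⟨R, C, T, hT, fun v => ?_⟩
  have e : Q v - T v = (Q v - P v) + (P v - T v) := by abel
  rw [e]
  refine (norm_add_le _ _).trans ?_
  linarith [hP' v, hT' v]

lemma ql_one : IsQL (d := d) (fun _ => 1) := by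
  have h := ql_opr (d := d) 1
  rwa [(Pool.Agent.W918.LL.main d 1 1).2.2.2.2.2.1] at h

lemma ql_pow {Q : RO d} (h : IsQL Q) (n : ℕ) : IsQL (fun v => Q v ^ n) := by
  induction n with
  | zero => simpa using ql_one
  | succ n ih =>
    simp only [pow_succ]
    exact ql_mul ih h

lemma ql_sum {Q : RO d} (h : IsQL Q) (n : ℕ) :
    IsQL (fun v => ∑ i ∈ Finset.range n, Q v ^ i) := by
  induction n with
  | zero =>
    simp only [Finset.range_zero, Finset.sum_empty]
    have := ql_sub (ql_one (d := d)) ql_one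
    simpa using this
  | succ n ih =>
    simp only [Finset.sum_range_succ]
    exact ql_add ih (ql_pow h n)

lemma inv_tail (A : l2 (Fin d → ℤ) →L[ℂ] l2 (Fin d → ℤ)) (q : ℝ) (hq0 : 0 ≤ q) (hq : q < 1)
    (hA : ‖A‖ ≤ q) (n : ℕ) :
    ‖Ring.inverse (1 - A) - ∑ i ∈ Finset.range n, A ^ i‖ ≤ q ^ n / (1 - q) := by
  have hA1 : ‖A‖ < 1 := lt_of_le_of_lt hA hq
  have e := NormedRing.inverse_one_sub_nth_order' n hA1
  have e2 : Ring.inverse (1 - A) - ∑ i ∈ Finset.range n, A ^ i = A ^ n * Ring.inverse (1 - A) := by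
    conv_lhs => rw [e]
    exact add_sub_cancel_left _ _
  have hu : IsUnit (1 - A) := ⟨Units.oneSub A hA1, rfl⟩
  have h1 : (1 - A) * Ring.inverse (1 - A) = 1 := Ring.mul_inverse_cancel _ hu
  have h2 : Ring.inverse (1 - A) = 1 + A * Ring.inverse (1 - A) := by
    rw [sub_mul, one_mul] at h1
    exact sub_eq_iff_eq_add.1 h1
  have h3 : ‖Ring.inverse (1 - A)‖ ≤ 1 / (1 - q) := by
    have h4 : ‖Ring.inverse (1 - A)‖ ≤ 1 + q * ‖Ring.inverse (1 - A)‖ := by
      conv_lhs => rw [h2]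
      refine (norm_add_le _ _).trans (add_le_add ?_ ?_)
      · exact ContinuousLinearMap.norm_id_le
      · exact (norm_mul_le _ _).trans (mul_le_mul_of_nonneg_right hA (norm_nonneg _))
    rw [le_div_iff₀ (by linarith)]
    nlinarith
  rw [e2]
  refine (norm_mul_le _ _).trans ?_
  have h5 : ‖A ^ n‖ ≤ q ^ n := by
    clear e e2
    induction n with
    | zero =>
      rw [pow_zero, pow_zero]
      exact ContinuousLinearMap.norm_id_le
    | succ n ih =>
      rw [pow_succ, pow_succ]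
      exact (norm_mul_le _ _).trans (mul_le_mul ih hA (norm_nonneg _) (by positivity))
  calc ‖A ^ n‖ * ‖Ring.inverse (1 - A)‖ ≤ q ^ n * (1 / (1 - q)) :=
        mul_le_mul h5 h3 (norm_nonneg _) (by positivity)
    _ = q ^ n / (1 - q) := by ring

lemma ql_inv {Q : RO d} (h : IsQL Q) (q : ℝ) (hq : q < 1) (hQ : ∀ v, ‖Q v‖ ≤ q) :
    IsQL (fun v => Ring.inverse (1 - Q v)) := by
  have hq0 : 0 ≤ q := (norm_nonneg _).trans (hQ 0)
  refine ql_lim fun ε hε => ?_
  have ht : Tendsto (fun n : ℕ => q ^ n / (1 - q)) atTop (𝓝 0) := by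
    have := (tendsto_pow_atTop_nhds_zero_of_lt_one hq0 hq).div_const (1 - q)
    simpa using this
  obtain ⟨n, hn⟩ := (ht.eventually (gt_mem_nhds hε)).exists
  exact ⟨_, ql_sum h n, fun v => (inv_tail (Q v) q hq0 hq (hQ v) n).trans hn.le⟩

lemma ql_meas {Q : RO d} (h : IsQL Q) (u : l2 (Fin d → ℤ)) (x : Fin d → ℤ) :
    Measurable fun v => Q v u x := by
  choose R C P hP hP' using fun n : ℕ => h (1 / ((n : ℝ) + 1)) (by positivity)
  refine measurable_of_tendsto_metrizable (f := fun n v => P n v u x)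
    (fun n => loc_meas (hP n) u x) ?_
  rw [tendsto_pi_nhds]
  intro v
  rw [tendsto_iff_norm_sub_tendsto_zero]
  have h0 : Tendsto (fun n : ℕ => 1 / ((n : ℝ) + 1) * ‖u‖) atTop (𝓝 0) := by
    have := (tendsto_one_div_add_atTop_nhds_zero_nat (𝕜 := ℝ)).mul_const ‖u‖
    simpa using this
  refine squeeze_zero (fun _ => norm_nonneg _) (fun n => ?_) h0
  rw [norm_sub_rev]
  calc ‖Q v u x - P n v u x‖ = ‖((Q v - P n v) u) x‖ := rfl
    _ ≤ ‖(Q v - P n v) u‖ := norm_coord _ _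
    _ ≤ ‖Q v - P n v‖ * ‖u‖ := ContinuousLinearMap.le_opNorm _ _
    _ ≤ 1 / ((n : ℝ) + 1) * ‖u‖ := by gcongr; exact hP' n v

theorem main : Pool.Agent.W792.WA.S_QL := by
  intro d
  refine ⟨ql_opr, ql_of_loc loc_dc, fun Q Q' h h' => ⟨ql_add h h', ql_sub h h', ql_mul h h'⟩,
    fun Q q h hq hQ => ql_inv h q hq hQ, fun Q h => ⟨?_, fun u x => ql_meas h u x⟩⟩
  obtain ⟨C, _, hC⟩ := ql_bound h
  exact ⟨C, hC⟩

end

end Pool.Agent.W74.WA.QL
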