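import Pool.Agent.W191.WD.Prod
import Pool.Agent.W558.WA.Stms

set_option autoImplicit false
set_option linter.unusedVariables false
set_option maxHeartbeats 400000

universe u

open TensorProduct

namespace Pool.Agent.W74.WA.Prod

open Pool.Agent.W558 Pool.Agent.W191.WD.Prod

theorem main : WA_prod.{u} := by
  intro p k E1 E2 L _ _ _ _ _ _ _ _ _ _ _ hinj0 hfr T1 I1 T2 I2 ι1 ι2 G1 G2 _ _ _ _ M1 M2
    f1 n1 a1 h1 f2 n2 a2 h2 g1 Γ1 g2 Γ2 hN1 hN2 hF1 hF2 hR1 hR2
  have hinj : Inj L k E1 E2 := hinj0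
  refine ⟨T1 × T2, I1 ⊕ I2, inferInstance, inferInstance, prodLM hinj M1 M2,
    Sum.elim (fun j => Sum.elim (n1 j) 0) (fun j => Sum.elim 0 (n2 j)),
    fun t => Sum.elim (fun j => algebraMap E1 L (a1 t.1 j)) (fun j => algebraMap E2 L (a2 t.2 j)),
    fun t => Sum.elim (fun j => algebraMap E1 L (h1 t.1 j)) (fun j => algebraMap E2 L (h2 t.2 j)),
    Sum.elim (fun b => Sum.elim (Γ1 b) 0) (fun b => Sum.elim 0 (Γ2 b)), ?_, ?_,
    frc hinj hfr M1 M2 hR1 hR2⟩
  · have hA : ∀ (t : T1 × T2) (j : ι1 ⊕ ι2), (Sum.elim (fun j => algebraMap E1 L (h1 t.1 j))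
        (fun j => algebraMap E2 L (h2 t.2 j)) j : L) ∈ (prodLM hinj M1 M2).A t := by
      rintro t (j | j)
      · exact meml (hN1.hA _ _)
      · exact memr (hN2.hA _ _)
    refine ⟨?_, hA, ?_, ?_⟩
    · rintro (j | j) (i | i)
      · exact hN1.n0 j i
      · exact le_rfl
      · exact le_rfl
      · exact hN2.n0 j i
    · rintro t (j | j)
      · simp only [Sum.elim_inl]
        rw [prod_monl, ← map_pow, ← map_mul, ← map_sub, ← map_add, ← hN1.eq]
      · simp only [Sum.elim_inr]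
        rw [prod_monr, ← map_pow, ← map_mul, ← map_sub, ← map_add, ← hN2.eq]
    · rintro t κ _ _ φ (j | j) ⟨i, hi, hφ⟩
      · obtain ⟨i', hi', hφ'⟩ : ∃ i', n1 j i' < 0 ∧
            (φ.comp (i1 (M1.A t.1) (M2.A t.2))) ⟨M1.x t.1 i', M1.xA t.1 i'⟩ = 0 := by
          rcases i with i | i
          · exact ⟨i, hi, hφ⟩
          · exact absurd hi (lt_irrefl _)
        obtain ⟨v1, hv1, hv1'⟩ := hN1.ln t.1 κ (φ.comp (i1 (M1.A t.1) (M2.A t.2))) j
          ⟨i', hi', hφ'⟩
        obtain ⟨v, hv, hv'⟩ := ext_lt hinj M1 M2 t κ φ v1 (zeroLT _ _)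
        refine ⟨v, ?_, ?_⟩
        · have := hv (n1 j) (h1 t.1 j) (hN1.hA _ _) (hA t (Sum.inl j))
          simp only [Sum.elim_inl] at this ⊢
          rw [this]
          exact hv1
        · rintro (l | l) hl
          · have := hv (n1 l) (h1 t.1 l) (hN1.hA _ _) (hA t (Sum.inl l))
            simp only [Sum.elim_inl] at this ⊢
            rw [this]
            exact hv1' l (fun h => hl (by rw [h]))
          · have := hv' (n2 l) (h2 t.2 l) (hN2.hA _ _) (hA t (Sum.inr l))
            simp only [Sum.elim_inr] at this ⊢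
            rw [this]
            exact om_zero _ _ _ _
      · obtain ⟨i', hi', hφ'⟩ : ∃ i', n2 j i' < 0 ∧
            (φ.comp (i2 (M1.A t.1) (M2.A t.2))) ⟨M2.x t.2 i', M2.xA t.2 i'⟩ = 0 := by
          rcases i with i | i
          · exact absurd hi (lt_irrefl _)
          · exact ⟨i, hi, hφ⟩
        obtain ⟨v2, hv2, hv2'⟩ := hN2.ln t.2 κ (φ.comp (i2 (M1.A t.1) (M2.A t.2))) j
          ⟨i', hi', hφ'⟩
        obtain ⟨v, hv, hv'⟩ := ext_lt hinj M1 M2 t κ φ (zeroLT _ _) v2
        refine ⟨v, ?_, ?_⟩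
        · have := hv' (n2 j) (h2 t.2 j) (hN2.hA _ _) (hA t (Sum.inr j))
          simp only [Sum.elim_inr] at this ⊢
          rw [this]
          exact hv2
        · rintro (l | l) hl
          · have := hv (n1 l) (h1 t.1 l) (hN1.hA _ _) (hA t (Sum.inl l))
            simp only [Sum.elim_inl] at this ⊢
            rw [this]
            exact om_zero _ _ _ _
          · have := hv' (n2 l) (h2 t.2 l) (hN2.hA _ _) (hA t (Sum.inr l))
            simp only [Sum.elim_inr] at this ⊢
            rw [this]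
            exact hv2' l (fun h => hl (by rw [h]))
  · rintro (b | b) t
    · obtain ⟨w, hw0, hw, hw', e⟩ := hF1 b t.1
      refine ⟨algebraMap E1 L w, (map_ne_zero _).2 hw0, meml hw, ?_, ?_⟩
      · rw [← map_inv₀]
        exact meml hw'
      · simp only [Sum.elim_inl]
        rw [prod_monl, ← map_mul, ← e]
    · obtain ⟨w, hw0, hw, hw', e⟩ := hF2 b t.2
      refine ⟨algebraMap E2 L w, (map_ne_zero _).2 hw0, memr hw, ?_, ?_⟩
      · rw [← map_inv₀]
        exact memr hw'
      · simp only [Sum.elim_inr]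
        rw [prod_monr, ← map_mul, ← e]

end Pool.Agent.W74.WA.Prod
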